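import Pool.Agent.Q180.TQ.Heis

/-!
# Cyclic `p`-subgroups attaining the transversal probability (MP_443384_al, Q1: disproved)

Let `G` be the Heisenberg group over `ℤ/4` (order 64). The cyclic subgroup `H0` of order 4 generated by
`(1, 0, 0)` has `P_G(H0) = 9/4096`, while every subgroup `H` with `(H : core_G(H)) ≤ 2` has
`P_G(H) ≥ 1/256`. So no subgroup `H` with `(H : core_G(H)) ≤ 2` attains `tp(G)`.

Proof. `P_G(H) = ∏ t!/t^t` over the double cosets of `H`, `t` the number of left cosets inside.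
If `(H : core H) ≤ 2` then all `t ≤ 2` and `P_G(H) = 2^{-n}`, where `2|H|n` is the number of elements
in double cosets with `t = 2`: at most 64, and at most 32 if `|H| = 2` because every involution of `G`
has at most two conjugates. So `n ≤ 8`.
-/

set_option autoImplicit false

namespace Pool.Agent.Results.MP_443384_al.HeisenbergModFour

open Pool.Agent.Q180.TP (P)
open Pool.Agent.Q180.TQ (Hz H0)

/-- The transversal probability `tp(G)`, the minimum of `P_G(H)` over all subgroups. -/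
noncomputable def tp (G : Type*) [Group G] : ℝ := ⨅ H : Subgroup G, (P H H : ℝ)

/-- The statement of Q1. -/
def Q1 : Prop := ∀ (G : Type) [Group G] [Finite G] [Nontrivial G],
  ∃ p : ℕ, p.Prime ∧ p ∣ Nat.card G ∧ ∃ H : Subgroup G, IsCyclic H ∧ (∃ k, Nat.card H = p ^ k) ∧
    (P H H : ℝ) = tp G ∧ H.normalCore.relIndex H ≤ p

lemma tp_le {G : Type*} [Group G] [Finite G] (H : Subgroup G) : tp G ≤ P H H :=
  ciInf_le (Set.finite_range _).bddBelow H

/-- For the Heisenberg group `Hz` over `ℤ/4`, of order 64, no subgroup `H` with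
`(H : core(H)) ≤ 2` attains `tp(Hz)`; and 2 is the only prime divisor of the order. -/
theorem result :
    ¬ Q1 ∧ Nat.card Hz = 2 ^ 6 ∧ tp Hz ≤ 9 / 4096 ∧
    ∀ H : Subgroup Hz, H.normalCore.relIndex H ≤ 2 → 1 / 256 ≤ P H H ∧ (P H H : ℝ) ≠ tp Hz := by
  have hcard : Nat.card Hz = 2 ^ 6 := by rw [Pool.Agent.Q180.TQ.card_Hz]; norm_num
  have h0 : tp Hz ≤ 9 / 4096 := by
    have h := tp_le H0
    rw [Pool.Agent.Q180.TQ.P_H0] at h
    push_cast at h
    exact h
  have hmain : ∀ H : Subgroup Hz, H.normalCore.relIndex H ≤ 2 →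
      1 / 256 ≤ P H H ∧ (P H H : ℝ) ≠ tp Hz := by
    intro H hH
    have h1 := Pool.Agent.Q180.TQ.P_small H hH
    refine ⟨h1, fun h2 => ?_⟩
    have h3 : ((1 / 256 : ℚ) : ℝ) ≤ (P H H : ℝ) := by exact_mod_cast h1
    push_cast at h3
    rw [h2] at h3
    linarith
  refine ⟨?_, hcard, h0, hmain⟩
  intro h
  have : Nontrivial Hz := Finite.one_lt_card_iff_nontrivial.1 (by rw [hcard]; norm_num)
  obtain ⟨p, hp, hdvd, H, _, _, hP, hcore⟩ := h Hz
  rw [hcard] at hdvd
  have hp2 : p = 2 := (Nat.prime_dvd_prime_iff_eq hp Nat.prime_two).1 (hp.dvd_of_dvd_pow hdvd)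
  rw [hp2] at hcore
  exact (hmain H hcore).2 hP

end Pool.Agent.Results.MP_443384_al.HeisenbergModFour
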